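import Pool.Agent.Work.MP_dcf6a6_c1.Interface

/-!
# Block ACC: solutions with degrees proportional to a given weight vector
-/

open CategoryTheory AlgebraicGeometry Polynomial Topology

namespace Pool.C1.helper50

open Pool.C1

noncomputable section

theorem stmt_ACC (hG : Stmt_GLUE) (hCo : Stmt_COORD) (hB : Stmt_BASIC) (hK : Stmt_CONST)
    (hD : Stmt_DEC) : Stmt_ACC := by
  intro J B _ _ _ _ D w δ hP hw hδ
  classical
  have hbas : ∀ s : B → J, ∃ (d : ℕ) (S : Finset ℂ), (∀ b, D.bl (s b) = b) →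
      (0 < d ∧ (∀ b, D.l (s b) ∣ d) ∧ ∀ q, q ∉ S → ∀ Bad : Finset ℂ,
        ∃ (τ' : J → ℂ[X]) (u' v' : ℂ[X]),
          D.IsSol (fun j => if j = s (D.bl j) then d / D.l j else 0) d τ' u' v' ∧
          D.Reg (fun j => if j = s (D.bl j) then d / D.l j else 0) d τ' ∧
          GoodZero q τ' u' v' ∧ GoodInf Bad d u' v') := by
    intro s
    by_cases hs : ∀ b, D.bl (s b) = b
    · obtain ⟨d, τ, u, v, hd, hdiv, hsol, hreg⟩ := hB D s hs (hP s hs)
      obtain ⟨S, hS⟩ := hCo D _ d τ u v hd hsol hreg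
      exact ⟨d, S, fun _ => ⟨hd, hdiv, hS⟩⟩
    · exact ⟨0, ∅, fun h => absurd h hs⟩
  choose ds Ss hbas using hbas
  obtain ⟨Bad, hBad⟩ : ∃ Bad : Finset ℂ, ∀ s, Ss s ⊆ Bad :=
    ⟨Finset.univ.biUnion Ss, fun s => Finset.subset_biUnion_of_mem Ss (Finset.mem_univ s)⟩
  have hstep : ∀ s : B → J, (∀ b, D.bl (s b) = b) → ∀ (c : J → ℕ) (d : ℕ),
      (∃ (τ : J → ℂ[X]) (u v : ℂ[X]), D.IsSol c d τ u v ∧ D.Reg c d τ ∧ GoodInf Bad d u v) →
      ∃ (τ : J → ℂ[X]) (u v : ℂ[X]),
        D.IsSol (fun j => c j + (if j = s (D.bl j) then ds s / D.l j else 0)) (d + ds s) τ u v ∧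
        D.Reg (fun j => c j + (if j = s (D.bl j) then ds s / D.l j else 0)) (d + ds s) τ ∧
        GoodInf Bad (d + ds s) u v := by
    intro s hs c d hgood
    obtain ⟨τ, u, v, h1, h2, h3⟩ := hgood
    have hq : u.coeff d = (u.coeff d / v.coeff d) * v.coeff d := by
      rw [div_mul_cancel₀ _ h3.1]
    have hqB : u.coeff d / v.coeff d ∉ Ss s := fun h => h3.2 _ (hBad s h) hq
    obtain ⟨τ', u', v', k1, k2, k3, k4⟩ := (hbas s hs).2.2 _ hqB Bad
    exact hG D Bad (u.coeff d / v.coeff d) c _ d (ds s) τ τ' u v u' v' h1 h2 h3.1 hq k1 k2 k3 k4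
  have hmul : ∀ s : B → J, (∀ b, D.bl (s b) = b) → ∀ (n : ℕ) (c : J → ℕ) (d : ℕ),
      (∃ (τ : J → ℂ[X]) (u v : ℂ[X]), D.IsSol c d τ u v ∧ D.Reg c d τ ∧ GoodInf Bad d u v) →
      ∃ (τ : J → ℂ[X]) (u v : ℂ[X]),
        D.IsSol (fun j => c j + n * (if j = s (D.bl j) then ds s / D.l j else 0))
          (d + n * ds s) τ u v ∧
        D.Reg (fun j => c j + n * (if j = s (D.bl j) then ds s / D.l j else 0))
          (d + n * ds s) τ ∧ GoodInf Bad (d + n * ds s) u v := by
    intro s hs n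
    induction n with
    | zero =>
      intro c d hgood
      simpa only [Nat.zero_mul, Nat.add_zero] using hgood
    | succ n ih =>
      intro c d hgood
      have h1 := hstep s hs _ _ (ih c d hgood)
      have e1 : (fun j => c j + n * (if j = s (D.bl j) then ds s / D.l j else 0)
          + (if j = s (D.bl j) then ds s / D.l j else 0)) =
          fun j => c j + (n + 1) * (if j = s (D.bl j) then ds s / D.l j else 0) := by
        funext j
        rw [Nat.add_mul, Nat.one_mul, Nat.add_assoc]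
      have e2 : d + n * ds s + ds s = d + (n + 1) * ds s := by
        rw [Nat.add_mul, Nat.one_mul, Nat.add_assoc]
      rw [e1, e2] at h1
      exact h1
  have hne : Nonempty B := Fintype.card_pos_iff.1 (lt_of_lt_of_le (by norm_num) D.three)
  obtain ⟨N, n, hN, hn0, hsum⟩ := hD D.bl D.l w δ ds hne D.l_pos hw D.bl_surj hδ
    (fun s hs => ⟨(hbas s hs).1, (hbas s hs).2.1⟩)
  have hall : ∀ T : Finset (B → J),
      ∃ (τ : J → ℂ[X]) (u v : ℂ[X]),
        D.IsSol (fun j => ∑ s ∈ T, n s * (if j = s (D.bl j) then ds s / D.l j else 0))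
          (∑ s ∈ T, n s * ds s) τ u v ∧
        D.Reg (fun j => ∑ s ∈ T, n s * (if j = s (D.bl j) then ds s / D.l j else 0))
          (∑ s ∈ T, n s * ds s) τ ∧ GoodInf Bad (∑ s ∈ T, n s * ds s) u v := by
    intro T
    induction T using Finset.induction_on with
    | empty =>
      simpa only [Finset.sum_empty] using hK D Bad
    | insert s T hs ih =>
      have e1 : (fun j => ∑ s ∈ insert s T, n s * (if j = s (D.bl j) then ds s / D.l j else 0)) =
          fun j => ∑ s ∈ T, n s * (if j = s (D.bl j) then ds s / D.l j else 0)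
            + n s * (if j = s (D.bl j) then ds s / D.l j else 0) := by
        funext j
        rw [Finset.sum_insert hs, Nat.add_comm]
      have e2 : ∑ s ∈ insert s T, n s * ds s = ∑ s ∈ T, n s * ds s + n s * ds s := by
        rw [Finset.sum_insert hs, Nat.add_comm]
      rw [e1, e2]
      by_cases hsec : ∀ b, D.bl (s b) = b
      · exact hmul s hsec (n s) _ _ ih
      · rw [hn0 s hsec]
        simpa only [Nat.zero_mul, Nat.add_zero] using ih
  obtain ⟨τ, u, v, h1, -, -⟩ := hall Finset.univ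
  have e1 : (fun j => ∑ s : B → J, n s * (if j = s (D.bl j) then ds s / D.l j else 0)) =
      fun j => N * w j := funext hsum
  rw [e1] at h1
  obtain ⟨b⟩ := hne
  have e2 : ∑ s : B → J, n s * ds s = N * δ := by
    rw [← h1.bal b, ← hδ b, Finset.mul_sum]
    refine Finset.sum_congr rfl fun j _ => ?_
    ring
  rw [e2] at h1
  exact ⟨N, τ, u, v, hN, h1⟩

end

end Pool.C1.helper50
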