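import Pool.Agent.Work.MP_dcf6a6_c1.Interface

/-!
# Block ALGI: two binary forms without common zero are algebraically independent
-/

open CategoryTheory AlgebraicGeometry Polynomial Topology

namespace Pool.C1.helper50

open Pool.C1

noncomputable section

theorem algi_scale {F : MvPolynomial (Fin 2) ℂ} {e : ℕ} (hF : F.IsHomogeneous e) (z : ℂ)
    (p : Fin 2 → ℂ) :
    MvPolynomial.eval (fun i => z * p i) F = z ^ e * MvPolynomial.eval p F := by
  rw [MvPolynomial.eval_eq', MvPolynomial.eval_eq', Finset.mul_sum]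
  refine Finset.sum_congr rfl fun d hd => ?_
  have hde : d.degree = e := by
    by_contra h
    exact (MvPolynomial.mem_support_iff.1 hd) (hF.coeff_eq_zero h)
  have h1 : ∏ i, (z * p i) ^ d i = z ^ e * ∏ i, p i ^ d i := by
    rw [Fin.prod_univ_two, Fin.prod_univ_two, ← hde, Finsupp.degree_eq_sum, Fin.sum_univ_two,
      mul_pow, mul_pow, pow_add]
    ring
  rw [h1]
  ring

theorem algi_eval (a b : ℂ[X]) (F : MvPolynomial (Fin 2) ℂ) (t : ℂ) :
    (MvPolynomial.aeval ![a, b] F).eval t = MvPolynomial.eval ![a.eval t, b.eval t] F := by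
  induction F using MvPolynomial.induction_on with
  | C a => simp
  | add p q hp hq => simp only [map_add, Polynomial.eval_add, hp, hq]
  | mul_X p n hp =>
    simp only [map_mul, Polynomial.eval_mul, hp, MvPolynomial.aeval_X, MvPolynomial.eval_X]
    fin_cases n <;> simp

theorem algi_const {f : ℂ[X]} (h : ∀ t, f.eval t ≠ 0) (s t : ℂ) : f.eval s = f.eval t := by
  have hd : f.degree = 0 := by
    by_contra hd
    obtain ⟨x, hx⟩ := IsAlgClosed.exists_root f hd
    exact h x hx
  rw [eq_C_of_degree_eq_zero hd, eval_C, eval_C]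

theorem algi_zero {F : MvPolynomial (Fin 2) ℂ} {e : ℕ} (hF : F.IsHomogeneous e) (he : 0 < e) :
    ∃ p : Fin 2 → ℂ, p ≠ 0 ∧ MvPolynomial.eval p F = 0 := by
  by_contra hno
  push Not at hno
  have hA := algi_const (f := MvPolynomial.aeval ![(X : ℂ[X]), 1] F) (by
    intro t
    rw [algi_eval, eval_X, eval_one]
    exact hno _ fun h => by have := congrFun h 1; simp at this) 2 1
  have hB := algi_const (f := MvPolynomial.aeval ![1, (X : ℂ[X])] F) (by
    intro t
    rw [algi_eval, eval_X, eval_one]
    exact hno _ fun h => by have := congrFun h 0; simp at this) (1 / 2) 1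
  rw [algi_eval, algi_eval, eval_X, eval_one, eval_X, eval_one] at hA hB
  have hC := algi_scale hF 2 ![1, 1 / 2]
  have e1 : (fun i => 2 * (![1, 1 / 2] : Fin 2 → ℂ) i) = ![2, 1] := by
    funext i
    fin_cases i <;> simp
  rw [e1, hA, hB] at hC
  have h11 : MvPolynomial.eval (![1, 1] : Fin 2 → ℂ) F ≠ 0 :=
    hno _ fun h => by have := congrFun h 0; simp at this
  have h2 : (2 : ℂ) ^ e = 1 := by
    have h3 : (2 ^ e - 1) * MvPolynomial.eval (![1, 1] : Fin 2 → ℂ) F = 0 := by
      rw [sub_mul, one_mul, ← hC, sub_self]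
    rcases mul_eq_zero.1 h3 with h | h
    · exact sub_eq_zero.1 h
    · exact absurd h h11
  have h4 : (2 : ℕ) ^ e = 1 := by exact_mod_cast h2
  have h5 : 1 < (2 : ℕ) ^ e := Nat.one_lt_pow he.ne' (by norm_num)
  omega

theorem algi_sub (Q : MvPolynomial (Fin 2) ℂ) :
    (MvPolynomial.X 1 : MvPolynomial (Fin 2) ℂ) ∣
      Q - MvPolynomial.aeval ![(MvPolynomial.X 0 : MvPolynomial (Fin 2) ℂ), 0] Q := by
  induction Q using MvPolynomial.induction_on with
  | C a => simp
  | add p q hp hq =>
    rw [map_add]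
    have h := dvd_add hp hq
    rw [show p + q - (MvPolynomial.aeval ![(MvPolynomial.X 0 : MvPolynomial (Fin 2) ℂ), 0] p +
      MvPolynomial.aeval ![(MvPolynomial.X 0 : MvPolynomial (Fin 2) ℂ), 0] q) =
      p - MvPolynomial.aeval ![(MvPolynomial.X 0 : MvPolynomial (Fin 2) ℂ), 0] p +
      (q - MvPolynomial.aeval ![(MvPolynomial.X 0 : MvPolynomial (Fin 2) ℂ), 0] q) by ring]
    exact h
  | mul_X p n hp =>
    rw [map_mul, MvPolynomial.aeval_X]
    fin_cases n
    · have h := hp.mul_right (MvPolynomial.X 0)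
      simp only [Fin.zero_eta, Fin.isValue, Matrix.cons_val_zero]
      rw [sub_mul] at h
      exact h
    · simp

theorem stmt_ALGI : Stmt_ALGI := by
  intro U e he hU hcop
  -- `U 1` does not vanish identically
  have hU1 : U 1 ≠ 0 := by
    intro h
    obtain ⟨p, hp, hp0⟩ := algi_zero (hU 0) (he 0)
    exact hp (hcop p hp0 (by rw [h, map_zero]))
  obtain ⟨p, hp, hp1⟩ := algi_zero (hU 1) (he 1)
  have hp0 : MvPolynomial.eval p (U 0) ≠ 0 := fun h => hp (hcop p h hp1)
  have hstep : ∀ Q : MvPolynomial (Fin 2) ℂ, MvPolynomial.aeval U Q = 0 →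
      ∃ Q', Q = MvPolynomial.X 1 * Q' ∧ MvPolynomial.aeval U Q' = 0 := by
    intro Q hQ
    have hz : ∀ z : ℂ, MvPolynomial.eval (![z, 0] : Fin 2 → ℂ) Q = 0 := by
      intro z
      obtain ⟨t, ht⟩ := IsAlgClosed.exists_pow_nat_eq (z / MvPolynomial.eval p (U 0)) (he 0)
      have h1 : MvPolynomial.eval (fun i => t * p i) (MvPolynomial.aeval U Q) = 0 := by
        rw [hQ, map_zero]
      have h2 : ∀ R : MvPolynomial (Fin 2) ℂ,
          MvPolynomial.eval (fun i => t * p i) (MvPolynomial.aeval U R) =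
          MvPolynomial.eval (fun k => MvPolynomial.eval (fun i => t * p i) (U k)) R := by
        intro R
        induction R using MvPolynomial.induction_on with
        | C a => simp
        | add p q hp hq => simp only [map_add, hp, hq]
        | mul_X p n hp => simp only [map_mul, MvPolynomial.aeval_X, MvPolynomial.eval_X, hp]
      rw [h2] at h1
      have h3 : (fun k => MvPolynomial.eval (fun i => t * p i) (U k)) = ![z, 0] := by
        funext k
        rw [algi_scale (hU k)]
        fin_cases k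
        · simp only [Fin.zero_eta, Fin.isValue, Matrix.cons_val_zero]
          rw [ht, div_mul_cancel₀ _ hp0]
        · simp [hp1]
      rw [h3] at h1
      exact h1
    have h4 : MvPolynomial.aeval ![(MvPolynomial.X 0 : MvPolynomial (Fin 2) ℂ), 0] Q = 0 := by
      apply MvPolynomial.funext
      intro x
      rw [map_zero]
      have h5 : ∀ R : MvPolynomial (Fin 2) ℂ, MvPolynomial.eval x
          (MvPolynomial.aeval ![(MvPolynomial.X 0 : MvPolynomial (Fin 2) ℂ), 0] R) =
          MvPolynomial.eval (![x 0, 0] : Fin 2 → ℂ) R := by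
        intro R
        induction R using MvPolynomial.induction_on with
        | C a => simp
        | add p q hp hq => simp only [map_add, hp, hq]
        | mul_X p n hp =>
          simp only [map_mul, MvPolynomial.aeval_X, MvPolynomial.eval_X, hp]
          fin_cases n <;> simp
      rw [h5]
      exact hz (x 0)
    obtain ⟨Q', hQ'⟩ := algi_sub Q
    rw [h4, sub_zero] at hQ'
    refine ⟨Q', hQ', ?_⟩
    rw [hQ', map_mul, MvPolynomial.aeval_X] at hQ
    exact (mul_eq_zero.1 hQ).resolve_left hU1
  have hker : ∀ Q : MvPolynomial (Fin 2) ℂ, MvPolynomial.aeval U Q = 0 → Q = 0 := by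
    intro Q
    refine (_root_.wellFounded_dvdNotUnit (α := MvPolynomial (Fin 2) ℂ)).induction
      (C := fun Q => MvPolynomial.aeval U Q = 0 → Q = 0) Q ?_
    intro Q ih hQ
    by_contra hQ0
    obtain ⟨Q', h1, h2⟩ := hstep Q hQ
    have hQ'0 : Q' ≠ 0 := by
      intro h
      apply hQ0
      rw [h1, h, mul_zero]
    exact hQ'0 (ih Q' ⟨hQ'0, MvPolynomial.X 1, MvPolynomial.X_prime.not_isUnit,
      by rw [h1, mul_comm]⟩ h2)
  intro P Q hPQ
  have h1 : MvPolynomial.aeval U (P - Q) = 0 := by
    rw [map_sub]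
    exact sub_eq_zero.2 hPQ
  exact sub_eq_zero.1 (hker _ h1)

end

end Pool.C1.helper50
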