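import Pool.Agent.Work.MP_dcf6a6_c1.Interface

/-!
# Block EISE: irreducibility of a monic trinomial over the polynomial ring
-/

open CategoryTheory AlgebraicGeometry Polynomial Topology

namespace Pool.C1.helper50

open Pool.C1

noncomputable section

theorem stmt_EISE : Stmt_EISE := by
  intro g g₀ g₁ κ₀ κ₁ hg hg₀ hg₁ hκ₀ hκ₁
  obtain ⟨a, ha⟩ : ∃ a : MvPolynomial (Fin 2) ℂ, a = MvPolynomial.C κ₀ * MvPolynomial.X 0 ^ g₀ +
    MvPolynomial.C κ₁ * MvPolynomial.X 1 ^ g₁ := ⟨_, rfl⟩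
  rw [← ha]
  have hau : ¬ IsUnit a := by
    intro h
    have h1 := h.map (MvPolynomial.eval (fun _ : Fin 2 => (0 : ℂ)))
    rw [ha] at h1
    simp [hg₀.ne', hg₁.ne'] at h1
  have ha0 : a ≠ 0 := by
    intro h
    have h1 : MvPolynomial.eval (![1, 0] : Fin 2 → ℂ) a = 0 := by rw [h, map_zero]
    rw [ha] at h1
    simp [hg₁.ne', hκ₀] at h1
  obtain ⟨ϖ, hϖ, hϖa⟩ := WfDvdMonoid.exists_irreducible_factor hau ha0
  have hϖp : Prime ϖ := hϖ.prime
  have hder : ∀ i : Fin 2, ϖ ^ 2 ∣ a → ϖ ∣ MvPolynomial.pderiv i a := by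
    rintro i ⟨b, hb⟩
    rw [hb, MvPolynomial.pderiv_mul, MvPolynomial.pderiv_pow]
    refine dvd_add ?_ ?_
    · exact ⟨(2 : ℕ) * MvPolynomial.pderiv i ϖ * b, by norm_num; ring⟩
    · exact ⟨ϖ * MvPolynomial.pderiv i b, by ring⟩
  have h01 : (1 : Fin 2) ≠ 0 := by decide
  have hnc : ∀ (κ : ℂ) (n : ℕ), κ ≠ 0 → 0 < n →
      ¬ ϖ ∣ (MvPolynomial.C κ * (n : MvPolynomial (Fin 2) ℂ)) := by
    intro κ n hκ hn h
    apply hϖ.not_isUnit
    refine isUnit_of_dvd_unit h ?_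
    have e1 : (MvPolynomial.C κ * (n : MvPolynomial (Fin 2) ℂ)) =
        MvPolynomial.C (κ * n) := by
      rw [MvPolynomial.C_mul]
      congr 1
    rw [e1]
    exact (IsUnit.mk0 _ (mul_ne_zero hκ (Nat.cast_ne_zero.2 hn.ne'))).map MvPolynomial.C
  refine irreducible_of_eisenstein_criterion (P := Ideal.span {ϖ})
    ((Ideal.span_singleton_prime hϖp.ne_zero).2 hϖp) ?_ ?_ ?_ ?_
    (monic_X_pow_add_C a hg.ne').isPrimitive
  · rw [(monic_X_pow_add_C a hg.ne').leadingCoeff, Ideal.mem_span_singleton]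
    exact fun h => hϖ.not_isUnit (isUnit_of_dvd_one h)
  · intro n hn
    rw [degree_X_pow_add_C hg] at hn
    have hng : n < g := by exact_mod_cast hn
    rw [Ideal.mem_span_singleton, coeff_add, coeff_X_pow, if_neg hng.ne, zero_add, coeff_C]
    split_ifs
    · exact hϖa
    · exact dvd_zero _
  · rw [degree_X_pow_add_C hg]
    exact_mod_cast hg
  · rw [coeff_add, coeff_X_pow, if_neg hg.ne, zero_add, coeff_C_zero, Ideal.span_singleton_pow,
      Ideal.mem_span_singleton]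
    intro h2
    have d0 := hder 0 h2
    have d1 := hder 1 h2
    have e0 : MvPolynomial.pderiv 0 a = MvPolynomial.C κ₀ * (g₀ : MvPolynomial (Fin 2) ℂ) *
        MvPolynomial.X 0 ^ (g₀ - 1) := by
      rw [ha, map_add, MvPolynomial.pderiv_C_mul, MvPolynomial.pderiv_C_mul,
        MvPolynomial.pderiv_pow, MvPolynomial.pderiv_pow, MvPolynomial.pderiv_X_self,
        MvPolynomial.pderiv_X_of_ne h01]
      ring
    have e1 : MvPolynomial.pderiv 1 a = MvPolynomial.C κ₁ * (g₁ : MvPolynomial (Fin 2) ℂ) *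
        MvPolynomial.X 1 ^ (g₁ - 1) := by
      rw [ha, map_add, MvPolynomial.pderiv_C_mul, MvPolynomial.pderiv_C_mul,
        MvPolynomial.pderiv_pow, MvPolynomial.pderiv_pow, MvPolynomial.pderiv_X_self,
        MvPolynomial.pderiv_X_of_ne h01.symm]
      ring
    rw [e0] at d0
    rw [e1] at d1
    have f0 : ϖ ∣ (MvPolynomial.X 0 : MvPolynomial (Fin 2) ℂ) :=
      hϖp.dvd_of_dvd_pow ((hϖp.dvd_or_dvd d0).resolve_left (hnc κ₀ g₀ hκ₀ hg₀))
    have f1 : ϖ ∣ (MvPolynomial.X 1 : MvPolynomial (Fin 2) ℂ) :=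
      hϖp.dvd_of_dvd_pow ((hϖp.dvd_or_dvd d1).resolve_left (hnc κ₁ g₁ hκ₁ hg₁))
    have hX0 : Irreducible (MvPolynomial.X 0 : MvPolynomial (Fin 2) ℂ) :=
      MvPolynomial.X_prime.irreducible
    obtain ⟨q, hq⟩ := (hϖ.dvd_symm hX0 f0).trans f1
    have h3 := congrArg (MvPolynomial.eval (![0, 1] : Fin 2 → ℂ)) hq
    simp at h3

end

end Pool.C1.helper50
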